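import Pool.Agent.Y979.HM.Stm

/-!
# Project HM: adjacency of Voronoi cells and balls with exactly two points
-/

set_option autoImplicit false

open MeasureTheory UpperHalfPlane Filter Pool.Agent.Y979.HV Pool.Agent.Y979.HM
open scoped Topology

namespace Pool.Agent.Y306.HM

/-- the Euclidean form of a distance -/
theorem eq_of_cosh (z x : ℍ) : z.re ^ 2 + z.im ^ 2 + (x.re ^ 2 + x.im ^ 2) - 2 * (z.re * x.re) =
    2 * (z.im * x.im) * Real.cosh (dist z x) := by
  rw [cosh_dist_eq, norm_sq_eq, norm_sq_eq]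
  have hzi := z.im_pos
  have hxi := x.im_pos
  field_simp

/-- bisectors in Euclidean terms -/
theorem dist_eq_iff (w x y : ℍ) : dist w x = dist w y ↔
    y.im * (w.re ^ 2 + w.im ^ 2 + (x.re ^ 2 + x.im ^ 2) - 2 * (w.re * x.re)) =
      x.im * (w.re ^ 2 + w.im ^ 2 + (y.re ^ 2 + y.im ^ 2) - 2 * (w.re * y.re)) := by
  have h1 := eq_of_cosh w x
  have h2 := eq_of_cosh w y
  have hx := x.im_pos
  have hy := y.im_pos
  have hw := w.im_pos
  constructor
  · intro h
    rw [h1, h2, h]
    ring
  · intro h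
    rw [h1, h2] at h
    apply cosh_inj_dist dist_nonneg dist_nonneg
    have h3 : (2 * w.im * x.im * y.im) * Real.cosh (dist w x) =
        (2 * w.im * x.im * y.im) * Real.cosh (dist w y) := by linear_combination h
    exact mul_left_cancel₀ (by positivity) h3

/-- a line and a circle meet in at most two points -/
theorem line_circle {α β c1 c2 a1 b1 a2 b2 a3 b3 : ℝ} (hn : 0 < α ^ 2 + β ^ 2)
    (l2 : α * a2 + β * b2 = α * a1 + β * b1) (l3 : α * a3 + β * b3 = α * a1 + β * b1)
    (q2 : a2 ^ 2 + b2 ^ 2 - 2 * (c1 * a2 + c2 * b2) = a1 ^ 2 + b1 ^ 2 - 2 * (c1 * a1 + c2 * b1))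
    (q3 : a3 ^ 2 + b3 ^ 2 - 2 * (c1 * a3 + c2 * b3) = a1 ^ 2 + b1 ^ 2 - 2 * (c1 * a1 + c2 * b1)) :
    (a2 = a1 ∧ b2 = b1) ∨ (a3 = a1 ∧ b3 = b1) ∨ (a2 = a3 ∧ b2 = b3) := by
  set N : ℝ := α ^ 2 + β ^ 2 with hN
  set s : ℝ := ((a2 - a1) * (-β) + (b2 - b1) * α) / N with hs
  set t : ℝ := ((a3 - a1) * (-β) + (b3 - b1) * α) / N with ht
  have hsN : s * N = (a2 - a1) * (-β) + (b2 - b1) * α := div_mul_cancel₀ _ hn.ne'
  have htN : t * N = (a3 - a1) * (-β) + (b3 - b1) * α := div_mul_cancel₀ _ hn.ne'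
  have e1 : a2 = a1 + s * (-β) := by
    apply mul_left_cancel₀ hn.ne'
    rw [hN] at hsN ⊢
    linear_combination (-β) * (-hsN) + α * l2
  have e2 : b2 = b1 + s * α := by
    apply mul_left_cancel₀ hn.ne'
    rw [hN] at hsN ⊢
    linear_combination α * (-hsN) + β * l2
  have e3 : a3 = a1 + t * (-β) := by
    apply mul_left_cancel₀ hn.ne'
    rw [hN] at htN ⊢
    linear_combination (-β) * (-htN) + α * l3
  have e4 : b3 = b1 + t * α := by
    apply mul_left_cancel₀ hn.ne'
    rw [hN] at htN ⊢
    linear_combination α * (-htN) + β * l3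
  rcases eq_or_ne s 0 with h0 | h0
  · left
    rw [e1, e2, h0]
    constructor <;> ring
  rcases eq_or_ne t 0 with h0' | h0'
  · right; left
    rw [e3, e4, h0']
    constructor <;> ring
  right; right
  have k1 : s * N = 2 * ((a1 - c1) * β - (b1 - c2) * α) := by
    apply mul_left_cancel₀ h0
    rw [e1, e2] at q2
    rw [hN]
    linear_combination q2
  have k2 : t * N = 2 * ((a1 - c1) * β - (b1 - c2) * α) := by
    apply mul_left_cancel₀ h0'
    rw [e3, e4] at q3
    rw [hN]
    linear_combination q3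
  have hst : s = t := mul_right_cancel₀ hn.ne' (k1.trans k2.symm)
  rw [e1, e2, e3, e4, hst]
  exact ⟨rfl, rfl⟩

theorem ext_im {z w : ℍ} (h1 : z.re = w.re) (h2 : z.im = w.im) : z = w := by
  apply UpperHalfPlane.ext
  apply Complex.ext
  · simpa using h1
  · simpa using h2

/-- three points with the same distances to two points -/
theorem three {z w x y v : ℍ} (hzw : z ≠ w) (h1 : dist z x = dist z y) (h2 : dist z x = dist z v)
    (h3 : dist w x = dist w y) (h4 : dist w x = dist w v) : y = x ∨ v = x ∨ y = v := by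
  have ex1 := eq_of_cosh z x
  have ey1 := eq_of_cosh z y
  have ev1 := eq_of_cosh z v
  have ex2 := eq_of_cosh w x
  have ey2 := eq_of_cosh w y
  have ev2 := eq_of_cosh w v
  rw [← h1] at ey1
  rw [← h2] at ev1
  rw [← h3] at ey2
  rw [← h4] at ev2
  set C1 := Real.cosh (dist z x) with hC1
  set C2 := Real.cosh (dist w x) with hC2
  set α : ℝ := z.re - w.re with hα
  set β : ℝ := z.im * C1 - w.im * C2 with hβ
  have hn : 0 < α ^ 2 + β ^ 2 := by
    by_contra hcon
    have h5 : α ^ 2 = 0 ∧ β ^ 2 = 0 := by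
      constructor <;> nlinarith [sq_nonneg α, sq_nonneg β]
    have h6 : z.re = w.re := by
      have := pow_eq_zero_iff (two_ne_zero) |>.1 h5.1
      linarith
    have h7 : z.im * C1 = w.im * C2 := by
      have := pow_eq_zero_iff (two_ne_zero) |>.1 h5.2
      linarith
    apply hzw
    have h8 : z.im ^ 2 = w.im ^ 2 := by
      rw [h6] at ex1
      linear_combination ex1 - ex2 + 2 * x.im * h7
    have h9 : z.im = w.im := by
      exact (pow_left_inj₀ z.im_pos.le w.im_pos.le two_ne_zero).1 h8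
    exact ext_im h6 h9
  have := line_circle (α := α) (β := β) (c1 := z.re) (c2 := z.im * C1) (a1 := x.re) (b1 := x.im)
    (a2 := y.re) (b2 := y.im) (a3 := v.re) (b3 := v.im) hn
    (by rw [hα, hβ]; linear_combination (ex1 - ex2 - ey1 + ey2) / 2)
    (by rw [hα, hβ]; linear_combination (ex1 - ex2 - ev1 + ev2) / 2)
    (by linear_combination ey1 - ex1) (by linear_combination ev1 - ex1)
  rcases this with h | h | h
  · left
    exact ext_im h.1 h.2
  · right; left
    exact ext_im h.1 h.2
  · right; right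
    exact ext_im h.1 h.2

/-- Adjacent Voronoi cells give a ball with exactly two points. -/
theorem adj1 : S_ADJ1 := by
  intro A hA x y hadj
  obtain ⟨hxy, z, w, hzw, hseg⟩ := hadj
  have hxy' : (x : ℍ) ≠ y := fun h => hxy (Subtype.ext h)
  have hD : 0 < dist z w := dist_pos.2 hzw
  obtain ⟨u, hu1, hu2⟩ := exists_on_segment (z := z) (w := w) (s := dist z w / 2) (by linarith)
    (by linarith)
  have hu : dist z u + dist u w = dist z w := by linarith
  have hux := (hseg u hu).1
  have huy := (hseg u hu).2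
  have hz := hseg z (by rw [dist_self, zero_add])
  have hw := hseg w (by rw [dist_self, add_zero])
  have hr : dist u (x : ℍ) = dist u (y : ℍ) := le_antisymm (hux y y.2) (huy x x.2)
  have hrz : dist z (x : ℍ) = dist z (y : ℍ) := le_antisymm (hz.1 y y.2) (hz.2 x x.2)
  have hrw : dist w (x : ℍ) = dist w (y : ℍ) := le_antisymm (hw.1 y y.2) (hw.2 x x.2)
  -- strictness
  have hstrict : ∀ v ∈ A, v ≠ x → v ≠ y → dist u (x : ℍ) < dist u v := by
    intro v hv hvx hvy
    refine lt_of_le_of_ne (hux v hv) ?_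
    intro heq
    have e1 := stewart hu (x : ℍ)
    have e2 := stewart hu v
    rw [← heq] at e2
    have s1 : 0 < Real.sinh (dist u w) := Real.sinh_pos_iff.2 (by linarith)
    have s2 : 0 < Real.sinh (dist z u) := Real.sinh_pos_iff.2 (by linarith)
    have c1 := (cosh_dist_le_iff _ _ _ _).2 (hz.1 v hv)
    have c2 := (cosh_dist_le_iff _ _ _ _).2 (hw.1 v hv)
    have t1 : Real.cosh (dist z (x : ℍ)) = Real.cosh (dist z v) := by
      by_contra hne
      have hlt := lt_of_le_of_ne c1 hne
      have a1 := mul_lt_mul_of_pos_left hlt s1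
      have a2 := mul_le_mul_of_nonneg_left c2 s2.le
      linarith
    have t2 : Real.cosh (dist w (x : ℍ)) = Real.cosh (dist w v) := by
      by_contra hne
      have hlt := lt_of_le_of_ne c2 hne
      have a1 := mul_lt_mul_of_pos_left hlt s2
      have a2 := mul_le_mul_of_nonneg_left c1 s1.le
      linarith
    have t1' := cosh_inj_dist dist_nonneg dist_nonneg t1
    have t2' := cosh_inj_dist dist_nonneg dist_nonneg t2
    rcases three hzw hrz t1' hrw t2' with h | h | h
    · exact hxy' h.symm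
    · exact hvx h
    · exact hvy h.symm
  -- the gap
  obtain ⟨δ, hδ, hgap⟩ : ∃ δ > 0, ∀ v ∈ A, v ≠ x → v ≠ y → dist u (x : ℍ) + δ ≤ dist u v := by
    have hfin : ((A ∩ Metric.closedBall u (dist u (x : ℍ) + 1)) \ {(x : ℍ), (y : ℍ)}).Finite :=
      (hA u (dist u (x : ℍ) + 1)).sdiff
    rcases ((A ∩ Metric.closedBall u (dist u (x : ℍ) + 1)) \ {(x : ℍ), (y : ℍ)}).eq_empty_or_nonempty
      with he | hne
    · refine ⟨1, one_pos, fun v hv hvx hvy => ?_⟩
      by_contra hcon
      push Not at hcon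
      have : v ∈ (A ∩ Metric.closedBall u (dist u (x : ℍ) + 1)) \ {(x : ℍ), (y : ℍ)} := by
        refine ⟨⟨hv, by rw [Metric.mem_closedBall, dist_comm]; exact hcon.le⟩, ?_⟩
        rw [Set.mem_insert_iff, Set.mem_singleton_iff, not_or]
        exact ⟨hvx, hvy⟩
      rw [he] at this
      exact this
    · obtain ⟨v0, hv0, hmin⟩ := Set.exists_min_image _ (fun v => dist u v) hfin hne
      have hv0' := hv0.2
      rw [Set.mem_insert_iff, Set.mem_singleton_iff, not_or] at hv0'
      have hpos := hstrict v0 hv0.1.1 hv0'.1 hv0'.2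
      refine ⟨min 1 (dist u v0 - dist u (x : ℍ)), lt_min one_pos (by linarith),
        fun v hv hvx hvy => ?_⟩
      by_cases hvb : v ∈ Metric.closedBall u (dist u (x : ℍ) + 1)
      · have h5 := hmin v ⟨⟨hv, hvb⟩, by
          rw [Set.mem_insert_iff, Set.mem_singleton_iff, not_or]
          exact ⟨hvx, hvy⟩⟩
        have h6 := min_le_right 1 (dist u v0 - dist u (x : ℍ))
        linarith
      · rw [Metric.mem_closedBall, not_le, dist_comm v u] at hvb
        have h6 := min_le_left 1 (dist u v0 - dist u (x : ℍ))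
        linarith
  -- the centre and the radius
  obtain ⟨n, hn⟩ : ∃ n, dist u (TopologicalSpace.denseSeq ℍ n) < δ / 4 := by
    have hd := TopologicalSpace.denseRange_denseSeq ℍ
    obtain ⟨c, hc1, n, hn⟩ := hd.exists_dist_lt u (by linarith : 0 < δ / 4) |> fun ⟨n, hn⟩ =>
      (⟨TopologicalSpace.denseSeq ℍ n, hn, n, rfl⟩ :
        ∃ c, dist u c < δ / 4 ∧ ∃ n, TopologicalSpace.denseSeq ℍ n = c)
    exact ⟨n, by rw [hn]; exact hc1⟩
  have hr0 : 0 ≤ dist u (x : ℍ) := dist_nonneg
  obtain ⟨ρ, hρ1, hρ2⟩ := exists_rat_btwn (show dist u (x : ℍ) + δ / 4 < dist u (x : ℍ) + 3 * δ / 4 by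
    linarith)
  have hρ0 : (0 : ℝ) < ρ := by linarith
  have hρ0' : 0 < ρ := by exact_mod_cast hρ0
  have hform : ((ρ.num.toNat : ℕ) : ℝ) / (((ρ.den - 1 : ℕ) : ℝ) + 1) = ρ := by
    have h1 : ((ρ.num.toNat : ℕ) : ℤ) = ρ.num := Int.toNat_of_nonneg (Rat.num_nonneg.2 hρ0'.le)
    have h2 : ((ρ.den - 1 : ℕ) : ℝ) + 1 = (ρ.den : ℝ) := by
      have h3 : 1 ≤ ρ.den := ρ.den_pos
      push_cast [Nat.cast_sub h3]
      ring
    have h4 : ((ρ.num.toNat : ℕ) : ℝ) = (ρ.num : ℝ) := by
      exact_mod_cast h1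
    rw [h2, h4]
    exact_mod_cast (Rat.num_div_den ρ)
  refine ⟨hxy', (n, ρ.num.toNat, ρ.den - 1), ?_⟩
  have hmem : ∀ v : ℍ, v ∈ RB (n, ρ.num.toNat, ρ.den - 1) ↔
      dist v (TopologicalSpace.denseSeq ℍ n) < ρ := by
    intro v
    unfold RB
    rw [Metric.mem_ball]
    simp only
    rw [hform]
  have hx : (x : ℍ) ∈ RB (n, ρ.num.toNat, ρ.den - 1) := by
    rw [hmem]
    have := dist_triangle (x : ℍ) u (TopologicalSpace.denseSeq ℍ n)
    rw [dist_comm (x : ℍ) u] at this
    linarith
  have hy : (y : ℍ) ∈ RB (n, ρ.num.toNat, ρ.den - 1) := by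
    rw [hmem]
    have := dist_triangle (y : ℍ) u (TopologicalSpace.denseSeq ℍ n)
    rw [dist_comm (y : ℍ) u, ← hr] at this
    linarith
  refine ⟨hx, hy, ?_⟩
  have hset : A ∩ RB (n, ρ.num.toNat, ρ.den - 1) = {(x : ℍ), (y : ℍ)} := by
    ext v
    constructor
    · rintro ⟨hvA, hvB⟩
      by_contra hcon
      rw [Set.mem_insert_iff, Set.mem_singleton_iff, not_or] at hcon
      have h1 := hgap v hvA hcon.1 hcon.2
      rw [hmem] at hvB
      have h2 := dist_triangle u (TopologicalSpace.denseSeq ℍ n) v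
      rw [dist_comm (TopologicalSpace.denseSeq ℍ n) v] at h2
      linarith
    · intro hv
      rw [Set.mem_insert_iff, Set.mem_singleton_iff] at hv
      rcases hv with rfl | rfl
      · exact ⟨x.2, hx⟩
      · exact ⟨y.2, hy⟩
  rw [hset, Set.encard_pair hxy']

/-- points on the bisector near a given one -/
theorem exists_near {u x y : ℍ} (h : dist u x = dist u y) (hxy : x ≠ y) {ε : ℝ} (hε : 0 < ε) :
    ∃ w : ℍ, w ≠ u ∧ dist w x = dist w y ∧ dist w u < ε := by
  have hU : IsOpen (UpperHalfPlane.coe '' Metric.ball u ε) :=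
    isOpenEmbedding_coe.isOpenMap _ Metric.isOpen_ball
  have huU : ((u : ℍ) : ℂ) ∈ UpperHalfPlane.coe '' Metric.ball u ε :=
    ⟨u, Metric.mem_ball_self hε, rfl⟩
  have hui := u.im_pos
  have hxi := x.im_pos
  have hyi := y.im_pos
  have h' := (dist_eq_iff u x y).1 h
  rcases eq_or_ne x.im y.im with him | him
  · -- vertical bisector
    have hre : x.re ≠ y.re := fun h5 => hxy (ext_im h5 him)
    let γ : ℝ → ℂ := fun t => ⟨u.re, u.im + t⟩
    have hγ : Continuous γ := by
      have : γ = fun t : ℝ => (⟨u.re, u.im⟩ : ℂ) + t * Complex.I := by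
        funext t
        apply Complex.ext <;> simp [γ]
      rw [this]
      fun_prop
    have hγ0 : γ 0 = (u : ℂ) := by
      apply Complex.ext <;> simp [γ]
    have hev : ∀ᶠ t in 𝓝 (0 : ℝ), γ t ∈ UpperHalfPlane.coe '' Metric.ball u ε :=
      hγ.continuousAt.eventually (by rw [hγ0]; exact hU.mem_nhds huU)
    obtain ⟨t, ht, ht0⟩ := ((hev.filter_mono nhdsWithin_le_nhds).and
      (self_mem_nhdsWithin : Set.Ioi (0 : ℝ) ∈ 𝓝[>] (0 : ℝ))).exists
    obtain ⟨w, hw1, hw2⟩ := ht
    have hwre : w.re = u.re := by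
      have := congrArg Complex.re hw2
      simpa [γ] using this
    have hwim : w.im = u.im + t := by
      have := congrArg Complex.im hw2
      simpa [γ] using this
    refine ⟨w, ?_, ?_, Metric.mem_ball.1 hw1⟩
    · intro h5
      rw [h5] at hwim
      have ht0' : 0 < t := ht0
      linarith
    · rw [dist_eq_iff, hwre, hwim]
      rw [him] at h' ⊢
      linear_combination h'
  · -- circular bisector
    have hd : y.im - x.im ≠ 0 := sub_ne_zero.2 him.symm
    set a : ℝ := (x.re * y.im - x.im * y.re) / (y.im - x.im) with ha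
    have ha' : a * (y.im - x.im) = x.re * y.im - x.im * y.re := div_mul_cancel₀ _ hd
    let γ : ℝ → ℂ := fun t => ⟨u.re + t, Real.sqrt (u.im ^ 2 - 2 * t * (u.re - a) - t ^ 2)⟩
    have hγ : Continuous γ := by
      have : γ = fun t : ℝ => ((u.re + t : ℝ) : ℂ) +
          ((Real.sqrt (u.im ^ 2 - 2 * t * (u.re - a) - t ^ 2) : ℝ) : ℂ) * Complex.I := by
        funext t
        apply Complex.ext <;> simp [γ]
      rw [this]
      fun_prop
    have hγ0 : γ 0 = (u : ℂ) := by
      apply Complex.ext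
      · simp [γ]
      · simp only [γ]
        rw [show u.im ^ 2 - 2 * 0 * (u.re - a) - 0 ^ 2 = u.im ^ 2 by ring, Real.sqrt_sq hui.le]
        rfl
    have hev : ∀ᶠ t in 𝓝 (0 : ℝ), γ t ∈ UpperHalfPlane.coe '' Metric.ball u ε :=
      hγ.continuousAt.eventually (by rw [hγ0]; exact hU.mem_nhds huU)
    obtain ⟨t, ht, ht0⟩ := ((hev.filter_mono nhdsWithin_le_nhds).and
      (self_mem_nhdsWithin : Set.Ioi (0 : ℝ) ∈ 𝓝[>] (0 : ℝ))).exists
    obtain ⟨w, hw1, hw2⟩ := ht
    have hwre : w.re = u.re + t := by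
      have := congrArg Complex.re hw2
      simpa [γ] using this
    have hwim : w.im = Real.sqrt (u.im ^ 2 - 2 * t * (u.re - a) - t ^ 2) := by
      have := congrArg Complex.im hw2
      simpa [γ] using this
    have hpos : 0 < u.im ^ 2 - 2 * t * (u.re - a) - t ^ 2 := by
      apply Real.sqrt_pos.1
      rw [← hwim]
      exact w.im_pos
    have hwim2 : w.im ^ 2 = u.im ^ 2 - 2 * t * (u.re - a) - t ^ 2 := by
      rw [hwim, Real.sq_sqrt hpos.le]
    refine ⟨w, ?_, ?_, Metric.mem_ball.1 hw1⟩
    · intro h5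
      rw [h5] at hwre
      have ht0' : 0 < t := ht0
      linarith
    · rw [dist_eq_iff, hwre, hwim2]
      linear_combination h' + 2 * t * ha'

/-- the point on the segment with the same distances -/
theorem exists_balanced {c x y : ℍ} (h : dist c x ≤ dist c y) (hxy : x ≠ y) :
    ∃ u : ℍ, dist c u + dist u y = dist c y ∧ dist u x = dist u y := by
  set K : Set ℍ := {u | dist c u + dist u y = dist c y ∧ dist u x ≤ dist u y} with hK
  have hclosed : IsClosed K := by
    apply IsClosed.and
    · exact isClosed_eq ((continuous_const.dist continuous_id).add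
        (continuous_id.dist continuous_const)) continuous_const
    · exact isClosed_le (continuous_id.dist continuous_const) (continuous_id.dist continuous_const)
  have hsub : K ⊆ Metric.closedBall c (dist c y) := by
    intro u hu
    rw [Metric.mem_closedBall, dist_comm]
    have := hu.1
    have h0 : 0 ≤ dist u y := dist_nonneg
    linarith
  have hcomp : IsCompact K := (isCompact_closedBall c (dist c y)).of_isClosed_subset hclosed hsub
  have hne : K.Nonempty := ⟨c, by rw [dist_self, zero_add], h⟩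
  obtain ⟨u, hu, hmin⟩ := hcomp.exists_isMinOn hne
    (continuous_id.dist continuous_const : Continuous fun u : ℍ => dist u y).continuousOn
  refine ⟨u, hu.1, ?_⟩
  by_contra hne'
  have hlt : dist u x < dist u y := lt_of_le_of_ne hu.2 hne'
  set m := dist u y with hm
  have hm0 : 0 < m := lt_of_le_of_lt dist_nonneg hlt
  set ε := (m - dist u x) / 2 with hε
  have hε0 : 0 < ε := by linarith
  have hεm : ε ≤ m := by
    have : 0 ≤ dist u x := dist_nonneg
    linarith
  obtain ⟨u', hu1, hu2⟩ := exists_on_segment (z := u) (w := y) hε0.le hεm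
  have h1 := dist_triangle c u u'
  have h2 := dist_triangle c u' y
  have h3 := dist_triangle u' u x
  rw [dist_comm u' u] at h3
  have hmem : u' ∈ K := by
    refine ⟨?_, ?_⟩
    · have := hu.1
      linarith
    · rw [hu2]
      linarith
  have h5 : dist u y ≤ dist u' y := isMinOn_iff.1 hmin u' hmem
  linarith

/-- A ball with exactly two points gives adjacent Voronoi cells. -/
theorem adj2 : S_ADJ2 := by
  intro A hA
  have main : ∀ (x y : A) (c : ℍ) (ρ : ℝ), (x : ℍ) ≠ y → dist c (x : ℍ) ≤ dist c (y : ℍ) →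
      dist c (y : ℍ) < ρ → (∀ v ∈ A, v ≠ x → v ≠ y → ρ ≤ dist c v) →
      (voronoiGraph A).Adj x y := by
    intro x y c ρ hxy hle hlt hout
    obtain ⟨u, hu1, hu2⟩ := exists_balanced hle hxy
    obtain ⟨w, hw1, hw2, hw3⟩ := exists_near hu2 hxy
      (show 0 < (ρ - dist c (y : ℍ)) / 2 by linarith)
    have hu3 : ∀ v ∈ A, v ≠ x → v ≠ y → dist u (y : ℍ) + (ρ - dist c (y : ℍ)) ≤ dist u v := by
      intro v hv hvx hvy
      have h1 := hout v hv hvx hvy
      have h2 := dist_triangle c u v
      linarith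
    refine adj_of_two (fun h => hxy (congrArg Subtype.val h)) hw1.symm (z := u) (w := w)
      ⟨?_, ?_⟩ ⟨?_, ?_⟩
    · intro v hv
      by_cases hvx : v = x
      · rw [hvx]
      by_cases hvy : v = y
      · rw [hvy, hu2]
      · have := hu3 v hv hvx hvy
        linarith
    · intro v hv
      by_cases hvx : v = x
      · rw [hvx, hu2]
      by_cases hvy : v = y
      · rw [hvy]
      · have := hu3 v hv hvx hvy
        linarith
    · intro v hv
      by_cases hvx : v = x
      · rw [hvx]
      by_cases hvy : v = y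
      · rw [hvy, hw2]
      · have h1 := hu3 v hv hvx hvy
        have h2 := dist_triangle w u (x : ℍ)
        have h3 := dist_triangle u w v
        rw [dist_comm u w] at h3
        linarith
    · intro v hv
      by_cases hvx : v = x
      · rw [hvx, hw2]
      by_cases hvy : v = y
      · rw [hvy]
      · have h1 := hu3 v hv hvx hvy
        have h2 := dist_triangle w u (y : ℍ)
        have h3 := dist_triangle u w v
        rw [dist_comm u w] at h3
        linarith
  intro x y ⟨hxy, q, hx, hy, hcard⟩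
  have hset : A ∩ RB q = {(x : ℍ), (y : ℍ)} := by
    have hsub : ({(x : ℍ), (y : ℍ)} : Set ℍ) ⊆ A ∩ RB q := by
      intro v hv
      rw [Set.mem_insert_iff, Set.mem_singleton_iff] at hv
      rcases hv with rfl | rfl
      · exact ⟨x.2, hx⟩
      · exact ⟨y.2, hy⟩
    have hfin : (A ∩ RB q).Finite := by
      apply Set.finite_of_encard_le_coe (k := 2)
      rw [hcard]
      exact le_rfl
    refine (hfin.eq_of_subset_of_encard_le' hsub ?_).symm
    rw [hcard, Set.encard_pair hxy]
  have hout : ∀ v ∈ A, v ≠ x → v ≠ y →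
      (q.2.1 : ℝ) / (q.2.2 + 1) ≤ dist (TopologicalSpace.denseSeq ℍ q.1) v := by
    intro v hv hvx hvy
    by_contra hcon
    push Not at hcon
    have : v ∈ A ∩ RB q := ⟨hv, by
      unfold RB
      rw [Metric.mem_ball, dist_comm]
      exact hcon⟩
    rw [hset, Set.mem_insert_iff, Set.mem_singleton_iff] at this
    rcases this with h | h
    · exact hvx h
    · exact hvy h
  unfold RB at hx hy
  rw [Metric.mem_ball, dist_comm] at hx hy
  rcases le_total (dist (TopologicalSpace.denseSeq ℍ q.1) (x : ℍ))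
    (dist (TopologicalSpace.denseSeq ℍ q.1) (y : ℍ)) with h | h
  · exact main x y _ _ hxy h hy hout
  · exact (main y x _ _ hxy.symm h hx (fun v hv h1 h2 => hout v hv h2 h1)).symm

end Pool.Agent.Y306.HM
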