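import Pool.Agent.Y979.HM.Stm

/-!
# Project HM: the test functions are Lipschitz for the chordal metric
-/

set_option autoImplicit false

open MeasureTheory UpperHalfPlane Pool.Agent.Y979.HV Pool.Agent.Y979.HM

namespace Pool.Agent.Y306.HM

theorem addI_ne (z : ℍ) : (z : ℂ) + Complex.I ≠ 0 := by
  intro h
  have h1 := congrArg Complex.im h
  simp at h1
  have := z.im_pos
  linarith

theorem addI_pos (z : ℍ) : 0 < ‖(z : ℂ) + Complex.I‖ := norm_pos_iff.2 (addI_ne z)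

theorem addI_le (z : ℍ) : ‖(z : ℂ) + Complex.I‖ ≤ ‖(z : ℂ)‖ + 1 := by
  have := norm_add_le (z : ℂ) Complex.I
  rwa [Complex.norm_I] at this

theorem norm_cay_sub (z w : ℍ) :
    ‖cay z - cay w‖ = 2 * ‖(z : ℂ) - w‖ / (‖(z : ℂ) + Complex.I‖ * ‖(w : ℂ) + Complex.I‖) := by
  have hz := addI_ne z
  have hw := addI_ne w
  have : cay z - cay w = 2 * Complex.I * ((z : ℂ) - w) /
      (((z : ℂ) + Complex.I) * ((w : ℂ) + Complex.I)) := by
    unfold cay
    field_simp
    ring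
  rw [this, norm_div, norm_mul, norm_mul, norm_mul, Complex.norm_I]
  simp

/-- Bounded Lipschitz functions with bounded support are Lipschitz for the chordal metric. -/
theorem lip_of {F : ℍ → ℝ} {L0 ρ : ℝ} (hL : 0 ≤ L0) (hρ : 0 ≤ ρ)
    (h1 : ∀ z w, |F z - F w| ≤ 1) (h2 : ∀ z w : ℍ, |F z - F w| ≤ L0 * ‖(z : ℂ) - w‖)
    (h3 : ∀ z : ℍ, ρ < ‖(z : ℂ)‖ → F z = 0) :
    ∃ L, ∀ z w : ℍ, |F z - F w| ≤ L * ‖cay z - cay w‖ := by
  refine ⟨L0 * (2 * ρ + 2) ^ 2 + (ρ + 1), ?_⟩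
  -- the case of one large point
  have key : ∀ z w : ℍ, 2 * ρ + 1 < ‖(w : ℂ)‖ →
      |F z - F w| ≤ (ρ + 1) * ‖cay z - cay w‖ := by
    intro z w hw
    have hFw : F w = 0 := h3 w (by linarith)
    rcases lt_or_ge ρ ‖(z : ℂ)‖ with hz | hz
    · rw [hFw, h3 z hz]
      simp
      positivity
    · have hd : 1 ≤ (ρ + 1) * ‖cay z - cay w‖ := by
        rw [norm_cay_sub]
        have a1 : ‖(w : ℂ)‖ - ρ ≤ ‖(z : ℂ) - w‖ := by
          have := norm_sub_norm_le (w : ℂ) z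
          rw [norm_sub_rev] at this
          linarith
        have a2 := addI_le z
        have a3 := addI_le w
        have p1 := addI_pos z
        have p2 := addI_pos w
        rw [mul_div_assoc', le_div_iff₀ (by positivity)]
        have b1 : ‖(z : ℂ) + Complex.I‖ * ‖(w : ℂ) + Complex.I‖ ≤ (ρ + 1) * (‖(w : ℂ)‖ + 1) :=
          mul_le_mul (by linarith) a3 p2.le (by linarith)
        have b2 : ‖(w : ℂ)‖ + 1 ≤ 2 * ‖(z : ℂ) - w‖ := by linarith
        have b3 : (ρ + 1) * (‖(w : ℂ)‖ + 1) ≤ (ρ + 1) * (2 * ‖(z : ℂ) - w‖) :=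
          mul_le_mul_of_nonneg_left b2 (by linarith)
        linarith
      exact (h1 z w).trans hd
  intro z w
  have hc0 : 0 ≤ ‖cay z - cay w‖ := norm_nonneg _
  rcases lt_or_ge (2 * ρ + 1) ‖(w : ℂ)‖ with hw | hw
  · refine (key z w hw).trans ?_
    exact mul_le_mul_of_nonneg_right (by nlinarith [sq_nonneg (2 * ρ + 2)]) hc0
  rcases lt_or_ge (2 * ρ + 1) ‖(z : ℂ)‖ with hz | hz
  · rw [abs_sub_comm, norm_sub_rev]
    rw [norm_sub_rev] at hc0
    refine (key w z hz).trans ?_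
    exact mul_le_mul_of_nonneg_right (by nlinarith [sq_nonneg (2 * ρ + 2)]) hc0
  · have hd : ‖(z : ℂ) - w‖ ≤ (2 * ρ + 2) ^ 2 * ‖cay z - cay w‖ := by
      rw [norm_cay_sub]
      have a2 := addI_le z
      have a3 := addI_le w
      have p1 := addI_pos z
      have p2 := addI_pos w
      rw [mul_div_assoc', le_div_iff₀ (by positivity)]
      have b1 : ‖(z : ℂ) + Complex.I‖ * ‖(w : ℂ) + Complex.I‖ ≤ (2 * ρ + 2) * (2 * ρ + 2) :=
        mul_le_mul (by linarith) (by linarith) p2.le (by linarith)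
      have n0 : 0 ≤ ‖(z : ℂ) - w‖ := norm_nonneg _
      have b2 := mul_le_mul_of_nonneg_left b1 n0
      nlinarith [sq_nonneg (2 * ρ + 2)]
    refine (h2 z w).trans ?_
    have := mul_le_mul_of_nonneg_left hd hL
    have h5 : 0 ≤ (ρ + 1) * ‖cay z - cay w‖ := by positivity
    nlinarith

theorem max0 (a b : ℝ) : |max 0 a - max 0 b| ≤ |a - b| := by
  rw [max_comm 0 a, max_comm 0 b]
  exact abs_max_sub_max_le_abs a b 0

theorem lip_tent {s r : ℝ} (hr : 0 < r) :
    ∃ L, ∀ z w : ℍ, |tent s r z - tent s r w| ≤ L * ‖cay z - cay w‖ := by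
  have h0 : ∀ z : ℍ, 0 ≤ tent s r z := fun z => le_max_left _ _
  have h1 : ∀ z : ℍ, tent s r z ≤ 1 := by
    intro z
    unfold tent
    refine max_le zero_le_one ?_
    have : 0 ≤ ‖(z : ℂ) - s‖ / r := by positivity
    linarith
  refine lip_of (L0 := 1 / r) (ρ := |s| + r) (by positivity) (by positivity) ?_ ?_ ?_
  · intro z w
    rw [abs_le]
    constructor <;> linarith [h0 z, h0 w, h1 z, h1 w]
  · intro z w
    unfold tent
    refine (max0 _ _).trans ?_
    · have e2 : (1 - ‖(z : ℂ) - s‖ / r) - (1 - ‖(w : ℂ) - s‖ / r) =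
        (1 / r) * (‖(w : ℂ) - s‖ - ‖(z : ℂ) - s‖) := by ring
      rw [e2, abs_mul, abs_of_pos (by positivity : 0 < 1 / r)]
      refine mul_le_mul_of_nonneg_left ?_ (by positivity)
      have := abs_norm_sub_norm_le ((w : ℂ) - s) ((z : ℂ) - s)
      rw [show ((w : ℂ) - s) - ((z : ℂ) - s) = (w : ℂ) - z by ring] at this
      rwa [norm_sub_rev (w : ℂ) z] at this
  · intro z hz
    unfold tent
    refine max_eq_left ?_
    have h4 : r ≤ ‖(z : ℂ) - s‖ := by
      have := norm_sub_norm_le (z : ℂ) (s : ℂ)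
      rw [Complex.norm_real, Real.norm_eq_abs] at this
      linarith
    have : 1 ≤ ‖(z : ℂ) - s‖ / r := by
      rw [le_div_iff₀ hr]
      linarith
    linarith

theorem lip_gen {s t r : ℝ} (hst : s ≠ t) (hr : 0 < r) (hr1 : r < 1) :
    ∃ L, ∀ z w : ℍ, |gen s t r z - gen s t r w| ≤ L * ‖cay z - cay w‖ := by
  have hd0 : 0 < |s - t| := abs_pos.2 (sub_ne_zero.2 hst)
  have hzt : ∀ (z : ℍ) (t : ℝ), 0 < ‖(z : ℂ) - t‖ := by
    intro z t
    rw [norm_pos_iff, sub_ne_zero]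
    intro h
    have h1 := congrArg Complex.im h
    simp at h1
    have := z.im_pos
    linarith
  -- normal form
  have hF : ∀ z : ℍ, gen s t r z = max 0 (1 - (1 / r) * (‖(z : ℂ) - s‖ / ‖(z : ℂ) - t‖)) := by
    intro z
    unfold gen
    congr 2
    have := (hzt z t).ne'
    field_simp
  have hzero : ∀ z : ℍ, r * ‖(z : ℂ) - t‖ ≤ ‖(z : ℂ) - s‖ → gen s t r z = 0 := by
    intro z hz
    unfold gen
    refine max_eq_left ?_
    have h5 : 0 < r * ‖(z : ℂ) - t‖ := mul_pos hr (hzt z t)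
    have : 1 ≤ ‖(z : ℂ) - s‖ / (r * ‖(z : ℂ) - t‖) := by
      rw [le_div_iff₀ h5]
      linarith
    linarith
  have h0 : ∀ z : ℍ, 0 ≤ gen s t r z := fun z => le_max_left _ _
  have h1 : ∀ z : ℍ, gen s t r z ≤ 1 := by
    intro z
    unfold gen
    refine max_le zero_le_one ?_
    have : 0 ≤ ‖(z : ℂ) - s‖ / (r * ‖(z : ℂ) - t‖) := by positivity
    linarith
  have h11 : ∀ z w, |gen s t r z - gen s t r w| ≤ 1 := by
    intro z w
    rw [abs_le]
    constructor <;> linarith [h0 z, h0 w, h1 z, h1 w]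
  -- triangle inequalities
  have htri : ∀ z : ℍ, |s - t| ≤ ‖(z : ℂ) - s‖ + ‖(z : ℂ) - t‖ := by
    intro z
    have := norm_sub_le ((z : ℂ) - t) ((z : ℂ) - s)
    rw [show ((z : ℂ) - t) - ((z : ℂ) - s) = ((s - t : ℝ) : ℂ) by push_cast; ring,
      Complex.norm_real, Real.norm_eq_abs] at this
    linarith
  have hq : ∀ z w : ℍ, |‖(z : ℂ) - s‖ / ‖(z : ℂ) - t‖ - ‖(w : ℂ) - s‖ / ‖(w : ℂ) - t‖| ≤
      ‖(z : ℂ) - w‖ * |s - t| / (‖(z : ℂ) - t‖ * ‖(w : ℂ) - t‖) := by
    intro z w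
    have p1 := hzt z t
    have p2 := hzt w t
    have n1 : (z : ℂ) - t ≠ 0 := norm_pos_iff.1 p1
    have n2 : (w : ℂ) - t ≠ 0 := norm_pos_iff.1 p2
    have := abs_norm_sub_norm_le (((z : ℂ) - s) / ((z : ℂ) - t)) (((w : ℂ) - s) / ((w : ℂ) - t))
    rw [norm_div, norm_div] at this
    refine this.trans_eq ?_
    rw [show ((z : ℂ) - s) / ((z : ℂ) - t) - ((w : ℂ) - s) / ((w : ℂ) - t) =
      ((z : ℂ) - w) * ((s - t : ℝ) : ℂ) / (((z : ℂ) - t) * ((w : ℂ) - t)) by
        push_cast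
        field_simp
        ring, norm_div, norm_mul, norm_mul, Complex.norm_real, Real.norm_eq_abs]
  -- the main estimate for a point inside the support
  have key : ∀ z w : ℍ, ‖(z : ℂ) - s‖ < r * ‖(z : ℂ) - t‖ →
      |gen s t r z - gen s t r w| ≤
        (4 / (r * |s - t|) + 4 / ((1 - r) * |s - t|)) * ‖(z : ℂ) - w‖ := by
    intro z w hz
    have p1 := hzt z t
    have p2 := hzt w t
    have hzs : ‖(z : ℂ) - s‖ ≤ ‖(z : ℂ) - t‖ := by nlinarith
    have hz2 : |s - t| / 2 ≤ ‖(z : ℂ) - t‖ := by linarith [htri z]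
    have n0 : 0 ≤ ‖(z : ℂ) - w‖ := norm_nonneg _
    have h1r : 0 < 1 - r := by linarith
    rcases le_or_gt ‖(w : ℂ) - s‖ ‖(w : ℂ) - t‖ with hw | hw
    · have hw2 : |s - t| / 2 ≤ ‖(w : ℂ) - t‖ := by linarith [htri w]
      have step : |gen s t r z - gen s t r w| ≤ 4 / (r * |s - t|) * ‖(z : ℂ) - w‖ := by
        rw [hF, hF]
        refine (max0 _ _).trans ?_
        rw [show (1 - 1 / r * (‖(z : ℂ) - s‖ / ‖(z : ℂ) - t‖)) -
          (1 - 1 / r * (‖(w : ℂ) - s‖ / ‖(w : ℂ) - t‖)) =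
          -(1 / r * (‖(z : ℂ) - s‖ / ‖(z : ℂ) - t‖ - ‖(w : ℂ) - s‖ / ‖(w : ℂ) - t‖)) by ring,
          abs_neg, abs_mul, abs_of_pos (by positivity : 0 < 1 / r)]
        have e1 := mul_le_mul_of_nonneg_left (hq z w) (by positivity : 0 ≤ 1 / r)
        refine e1.trans ?_
        have e2 : (|s - t| / 2) * (|s - t| / 2) ≤ ‖(z : ℂ) - t‖ * ‖(w : ℂ) - t‖ :=
          mul_le_mul hz2 hw2 (by positivity) p1.le
        have e3 : ‖(z : ℂ) - w‖ * |s - t| / (‖(z : ℂ) - t‖ * ‖(w : ℂ) - t‖) ≤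
            ‖(z : ℂ) - w‖ * |s - t| / ((|s - t| / 2) * (|s - t| / 2)) :=
          div_le_div_of_nonneg_left (by positivity) (by positivity) e2
        refine (mul_le_mul_of_nonneg_left e3 (by positivity : 0 ≤ 1 / r)).trans_eq ?_
        field_simp
        norm_num
      have h6 : 0 ≤ 4 / ((1 - r) * |s - t|) * ‖(z : ℂ) - w‖ := by positivity
      linarith [add_mul (4 / (r * |s - t|)) (4 / ((1 - r) * |s - t|)) ‖(z : ℂ) - w‖]
    · have a1 : ‖(w : ℂ) - s‖ ≤ ‖(z : ℂ) - w‖ + ‖(z : ℂ) - s‖ := by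
        have := norm_sub_le ((z : ℂ) - s) ((z : ℂ) - w)
        rw [show ((z : ℂ) - s) - ((z : ℂ) - w) = (w : ℂ) - s by ring] at this
        linarith
      have a2 : ‖(z : ℂ) - t‖ ≤ ‖(z : ℂ) - w‖ + ‖(w : ℂ) - t‖ := by
        have := norm_add_le ((z : ℂ) - w) ((w : ℂ) - t)
        rwa [show ((z : ℂ) - w) + ((w : ℂ) - t) = (z : ℂ) - t by ring] at this
      have a3 : (1 - r) * (|s - t| / 2) ≤ (1 - r) * ‖(z : ℂ) - t‖ :=
        mul_le_mul_of_nonneg_left hz2 h1r.le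
      have a4 : (1 - r) * |s - t| ≤ 4 * ‖(z : ℂ) - w‖ := by nlinarith
      have step : 1 ≤ 4 / ((1 - r) * |s - t|) * ‖(z : ℂ) - w‖ := by
        rw [div_mul_eq_mul_div, le_div_iff₀ (by positivity)]
        linarith
      have h6 : 0 ≤ 4 / (r * |s - t|) * ‖(z : ℂ) - w‖ := by positivity
      have := h11 z w
      linarith [add_mul (4 / (r * |s - t|)) (4 / ((1 - r) * |s - t|)) ‖(z : ℂ) - w‖]
  have h1r : 0 < 1 - r := by linarith
  refine lip_of (L0 := 4 / (r * |s - t|) + 4 / ((1 - r) * |s - t|))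
    (ρ := |s| + r * |s - t| / (1 - r)) (by positivity) (by positivity) h11 ?_ ?_
  · intro z w
    rcases lt_or_ge ‖(z : ℂ) - s‖ (r * ‖(z : ℂ) - t‖) with hz | hz
    · exact key z w hz
    rcases lt_or_ge ‖(w : ℂ) - s‖ (r * ‖(w : ℂ) - t‖) with hw | hw
    · rw [abs_sub_comm, norm_sub_rev]
      exact key w z hw
    · rw [hzero z hz, hzero w hw]
      simp
      positivity
  · intro z hz
    apply hzero
    by_contra hcon
    push Not at hcon
    have b1 : ‖(z : ℂ) - t‖ ≤ ‖(z : ℂ) - s‖ + |s - t| := by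
      have := norm_add_le ((z : ℂ) - s) ((s - t : ℝ) : ℂ)
      rwa [show ((z : ℂ) - s) + ((s - t : ℝ) : ℂ) = (z : ℂ) - t by push_cast; ring,
        Complex.norm_real, Real.norm_eq_abs] at this
    have b2 : ‖(z : ℂ)‖ ≤ |s| + ‖(z : ℂ) - s‖ := by
      have := norm_add_le ((z : ℂ) - s) (s : ℂ)
      rw [sub_add_cancel, Complex.norm_real, Real.norm_eq_abs] at this
      linarith
    have b3 : r * |s - t| / (1 - r) < ‖(z : ℂ) - s‖ := by linarith
    rw [div_lt_iff₀ h1r] at b3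
    nlinarith

/-- inversion -/
noncomputable def inv' (z : ℍ) : ℍ := ⟨-1 / (z : ℂ), by
  have h := z.im_pos
  have hn : 0 < Complex.normSq (z : ℂ) := Complex.normSq_pos.2 z.ne_zero
  rw [neg_div, Complex.neg_im, one_div, Complex.inv_im, neg_div, neg_neg]
  exact div_pos h hn⟩

theorem coe_inv' (z : ℍ) : ((inv' z : ℍ) : ℂ) = -1 / (z : ℂ) := rfl

theorem norm_inv' (z : ℍ) : ‖((inv' z : ℍ) : ℂ)‖ = 1 / ‖(z : ℂ)‖ := by
  rw [coe_inv', norm_div, norm_neg, norm_one]

theorem cay_inv' (z : ℍ) : cay (inv' z) = -cay z := by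
  unfold cay
  rw [coe_inv']
  have h0 : (z : ℂ) ≠ 0 := z.ne_zero
  have h1 := addI_ne z
  have h2 : -1 / (z : ℂ) + Complex.I ≠ 0 := by
    have := addI_ne (inv' z)
    rwa [coe_inv'] at this
  rw [div_eq_iff h2, ← neg_div, div_mul_eq_mul_div, eq_div_iff h1]
  field_simp
  ring_nf
  rw [Complex.I_sq]
  ring

theorem lip_inv {F G : ℍ → ℝ} (h : ∀ z, G z = F (inv' z))
    (hF : ∃ L, ∀ z w : ℍ, |F z - F w| ≤ L * ‖cay z - cay w‖) :
    ∃ L, ∀ z w : ℍ, |G z - G w| ≤ L * ‖cay z - cay w‖ := by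
  obtain ⟨L, hL⟩ := hF
  refine ⟨L, fun z w => ?_⟩
  rw [h, h]
  refine (hL _ _).trans_eq ?_
  rw [cay_inv', cay_inv', show -cay z - -cay w = -(cay z - cay w) by ring, norm_neg]

theorem log_aux {x y : ℝ} (hx : 0 < x) (hxy : x ≤ y) :
    max 0 (min 1 (Real.log x)) ≤ max 0 (min 1 (Real.log y)) ∧
    max 0 (min 1 (Real.log y)) - max 0 (min 1 (Real.log x)) ≤ y - x := by
  have hy : 0 < y := lt_of_lt_of_le hx hxy
  have hlog : Real.log x ≤ Real.log y := Real.log_le_log hx hxy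
  refine ⟨max_le_max le_rfl (min_le_min le_rfl hlog), ?_⟩
  rcases le_or_gt y 1 with h | h
  · have h1 : Real.log y ≤ 0 := Real.log_nonpos hy.le h
    have e1 : max 0 (min 1 (Real.log y)) = 0 := max_eq_left (min_le_of_right_le h1)
    have e2 : 0 ≤ max 0 (min 1 (Real.log x)) := le_max_left _ _
    linarith
  · have hly : max 0 (min 1 (Real.log y)) ≤ Real.log y :=
      max_le (Real.log_nonneg h.le) (min_le_right _ _)
    rcases le_or_gt 1 x with h' | h'
    · have hlx : 0 ≤ Real.log x := Real.log_nonneg h'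
      have e0 : Real.log y - Real.log x ≤ y - x := by
        rw [← Real.log_div hy.ne' hx.ne']
        have := Real.log_le_sub_one_of_pos (div_pos hy hx)
        refine this.trans ?_
        rw [div_sub_one hx.ne', div_le_iff₀ hx]
        nlinarith
      rcases le_or_gt 1 (Real.log x) with h4 | h4
      · have e1 : max 0 (min 1 (Real.log x)) = 1 := by
          rw [min_eq_left h4]
          simp
        have e2 : max 0 (min 1 (Real.log y)) = 1 := by
          rw [min_eq_left (h4.trans hlog)]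
          simp
        rw [e1, e2]
        linarith
      · have e1 : max 0 (min 1 (Real.log x)) = Real.log x := by
          rw [min_eq_right h4.le, max_eq_right hlx]
        rw [e1]
        linarith
    · have e2 : 0 ≤ max 0 (min 1 (Real.log x)) := le_max_left _ _
      have := Real.log_le_sub_one_of_pos hy
      linarith

theorem lip_Wp : ∃ L, ∀ z w : ℍ, |Wp z - Wp w| ≤ L * ‖cay z - cay w‖ := by
  have h0 : ∀ z : ℍ, 0 ≤ Wp z := fun z => le_max_left _ _
  have h1 : ∀ z : ℍ, Wp z ≤ 1 := fun z => max_le zero_le_one (min_le_left _ _)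
  have h11 : ∀ z w : ℍ, |Wp z - Wp w| ≤ 1 := by
    intro z w
    rw [abs_le]
    constructor <;> linarith [h0 z, h0 w, h1 z, h1 w]
  have hl : ∀ z w : ℍ, |Wp z - Wp w| ≤ 1 * ‖(z : ℂ) - w‖ := by
    have aux : ∀ z w : ℍ, ‖(z : ℂ)‖ ≤ ‖(w : ℂ)‖ → |Wp z - Wp w| ≤ 1 * ‖(z : ℂ) - w‖ := by
      intro z w hzw
      have := log_aux (norm_pos' z) hzw
      unfold Wp sc
      rw [abs_sub_comm, abs_of_nonneg (by linarith [this.1]), one_mul]
      have h3 := norm_sub_norm_le (w : ℂ) z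
      rw [norm_sub_rev] at h3
      linarith [this.2]
    intro z w
    rcases le_total ‖(z : ℂ)‖ ‖(w : ℂ)‖ with h | h
    · exact aux z w h
    · rw [abs_sub_comm, norm_sub_rev]
      exact aux w z h
  have hF : ∃ L, ∀ z w : ℍ, |(1 - Wp z) - (1 - Wp w)| ≤ L * ‖cay z - cay w‖ := by
    refine lip_of (F := fun z => 1 - Wp z) (L0 := 1) (ρ := Real.exp 1) zero_le_one
      (Real.exp_pos 1).le ?_ ?_ ?_
    · intro z w
      show |(1 - Wp z) - (1 - Wp w)| ≤ 1
      rw [show (1 - Wp z) - (1 - Wp w) = -(Wp z - Wp w) by ring, abs_neg]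
      exact h11 z w
    · intro z w
      show |(1 - Wp z) - (1 - Wp w)| ≤ 1 * ‖(z : ℂ) - w‖
      rw [show (1 - Wp z) - (1 - Wp w) = -(Wp z - Wp w) by ring, abs_neg]
      exact hl z w
    · intro z hz
      show 1 - Wp z = 0
      have : 1 ≤ Real.log ‖(z : ℂ)‖ := by
        rw [Real.le_log_iff_exp_le (norm_pos' z)]
        exact hz.le
      unfold Wp sc
      rw [min_eq_left this]
      simp
  obtain ⟨L, hL⟩ := hF
  refine ⟨L, fun z w => ?_⟩
  have := hL z w
  rwa [show (1 - Wp z) - (1 - Wp w) = -(Wp z - Wp w) by ring, abs_neg] at this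

/-- The test functions are Lipschitz for the chordal metric. -/
theorem lip : S_LIP := by
  refine ⟨fun s t r hst hr hr1 => lip_gen hst hr hr1, fun s r hr => lip_tent hr, ?_, lip_Wp, ?_⟩
  · intro R hR
    refine lip_inv (F := tent 0 (1 / R)) ?_ (lip_tent (by positivity))
    intro z
    unfold tinf tent
    have hz := norm_pos' z
    rw [Complex.ofReal_zero, sub_zero, norm_inv']
    congr 2
    field_simp
  · refine lip_inv (F := Wp) ?_ lip_Wp
    intro z
    unfold Wm Wp sc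
    rw [norm_inv', one_div, Real.log_inv]

end Pool.Agent.Y306.HM
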