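import Pool.Agent.Y979.HM.Stm

/-!
Project HM: the minimal solution of the Dirichlet problem (`S_MIN`)
-/

set_option autoImplicit false

open MeasureTheory Filter
open scoped ENNReal Topology

namespace Pool.Agent.Y306.HM

open Pool.Agent.Y979.HM

/-- the Laplacian as a finite sum -/
theorem lap_eq {V : Type*} (G : SimpleGraph V) (u : V → ℝ) (v : V)
    (h : (G.neighborSet v).Finite) : lap G u v = ∑ z ∈ h.toFinset, (u v - u z) := by
  unfold lap
  exact finsum_mem_eq_finite_toFinset_sum _ h

/-- The minimal nonnegative solution of the Dirichlet problem on a finite set. -/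
theorem min_ : S_MIN := by
  classical
  intro V G hLF W F C hF0 hFC
  set N : V → Finset V := fun v => (hLF v).toFinset with hN
  set st : (V → ℝ) → V → ℝ :=
    fun u v => if v ∈ W then (∑ z ∈ N v, u z) / ((N v).card : ℝ) else F v with hst
  set u : ℕ → V → ℝ := fun k => st^[k] (fun v => if v ∈ W then 0 else F v) with hu
  have hsucc : ∀ k, u (k + 1) = st (u k) := fun k => Function.iterate_succ_apply' _ _ _
  have h0 : u 0 = fun v => if v ∈ W then 0 else F v := rfl
  have stW : ∀ (f : V → ℝ) (v : V), v ∈ W → st f v = (∑ z ∈ N v, f z) / ((N v).card : ℝ) :=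
    fun f v hv => if_pos hv
  have stN : ∀ (f : V → ℝ) (v : V), v ∉ W → st f v = F v := fun f v hv => if_neg hv
  have hC : ∀ _ : V, 0 ≤ C := fun v => (hF0 v).trans (hFC v)
  have hmono : ∀ f g : V → ℝ, (∀ v, f v ≤ g v) → ∀ v, st f v ≤ st g v := by
    intro f g hfg v
    by_cases hv : v ∈ W
    · rw [stW f v hv, stW g v hv]
      exact div_le_div_of_nonneg_right (Finset.sum_le_sum fun z _ => hfg z) (Nat.cast_nonneg _)
    · rw [stN f v hv, stN g v hv]
  have hnn : ∀ k v, 0 ≤ u k v := by
    intro k
    induction k with
    | zero =>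
      intro v
      rw [h0]
      simp only
      split_ifs
      · exact le_rfl
      · exact hF0 v
    | succ k ih =>
      intro v
      rw [hsucc]
      by_cases hv : v ∈ W
      · rw [stW _ v hv]
        exact div_nonneg (Finset.sum_nonneg fun z _ => ih z) (Nat.cast_nonneg _)
      · rw [stN _ v hv]
        exact hF0 v
  have hle : ∀ k v, u k v ≤ C := by
    intro k
    induction k with
    | zero =>
      intro v
      rw [h0]
      simp only
      split_ifs
      · exact hC v
      · exact hFC v
    | succ k ih =>
      intro v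
      rw [hsucc]
      by_cases hv : v ∈ W
      · rw [stW _ v hv]
        rcases Nat.eq_zero_or_pos (N v).card with h | h
        · rw [h, Nat.cast_zero, div_zero]
          exact hC v
        · have h' : (0 : ℝ) < (N v).card := by exact_mod_cast h
          rw [div_le_iff₀ h', mul_comm, ← nsmul_eq_mul]
          exact Finset.sum_le_card_nsmul _ _ _ fun z _ => ih z
      · rw [stN _ v hv]
        exact hFC v
  have hstep : ∀ k v, u k v ≤ u (k + 1) v := by
    intro k
    induction k with
    | zero =>
      intro v
      by_cases hv : v ∈ W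
      · rw [h0]
        simp only [if_pos hv]
        exact hnn 1 v
      · rw [hsucc, stN _ v hv, h0]
        simp only [if_neg hv]
        exact le_rfl
    | succ k ih =>
      intro v
      rw [hsucc k, hsucc (k + 1)]
      exact hmono _ _ (fun z => ih z) v
  have hmon : ∀ v, Monotone fun k => u k v := fun v => monotone_nat_of_le_succ fun k => hstep k v
  have hbdd : ∀ v, BddAbove (Set.range fun k => u k v) := fun v =>
    ⟨C, by rintro _ ⟨k, rfl⟩; exact hle k v⟩
  set w : V → ℝ := fun v => ⨆ k, u k v with hw
  have hlim : ∀ v, Tendsto (fun k => u k v) atTop (𝓝 (w v)) := fun v =>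
    tendsto_atTop_ciSup (hmon v) (hbdd v)
  refine ⟨w, fun v => ge_of_tendsto' (hlim v) fun k => hnn k v,
    fun v => le_of_tendsto' (hlim v) fun k => hle k v, fun v hv => ?_, fun v hv => ?_⟩
  · have h1 : Tendsto (fun k => u (k + 1) v) atTop (𝓝 (w v)) :=
      (tendsto_add_atTop_iff_nat 1).2 (hlim v)
    have h2 : (fun k => u (k + 1) v) = fun _ => F v := by
      ext k
      rw [hsucc, stN _ v hv]
    rw [h2] at h1
    exact tendsto_nhds_unique h1 tendsto_const_nhds
  · have h1 : Tendsto (fun k => u (k + 1) v) atTop (𝓝 (w v)) :=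
      (tendsto_add_atTop_iff_nat 1).2 (hlim v)
    have h2 : Tendsto (fun k => u (k + 1) v) atTop
        (𝓝 ((∑ z ∈ N v, w z) / ((N v).card : ℝ))) := by
      have h3 : (fun k => u (k + 1) v) = fun k => (∑ z ∈ N v, u k z) / ((N v).card : ℝ) := by
        ext k
        rw [hsucc, stW _ v hv]
      rw [h3]
      exact (tendsto_finsetSum _ fun z _ => hlim z).div_const _
    have h4 := tendsto_nhds_unique h1 h2
    rw [lap_eq G w v (hLF v), Finset.sum_sub_distrib, Finset.sum_const, nsmul_eq_mul]
    change ((N v).card : ℝ) * w v - ∑ z ∈ N v, w z = 0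
    rcases Nat.eq_zero_or_pos (N v).card with h | h
    · rw [Finset.card_eq_zero.1 h]
      simp
    · have h' : ((N v).card : ℝ) ≠ 0 := by
        have : (0 : ℝ) < (N v).card := by exact_mod_cast h
        exact this.ne'
      rw [h4]
      field_simp
      ring

end Pool.Agent.Y306.HM
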