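import Pool.Agent.Y979.HM.Stm

/-!
# Project HM: Moebius transformations as measurable equivalences
-/

set_option autoImplicit false

open MeasureTheory UpperHalfPlane Pool.Agent.Y979.HV Pool.Agent.Y979.HM
open scoped ENNReal MatrixGroups

namespace Pool.Agent.Y306.HM

/-- Moebius transformations are isometric, measure preserving measurable equivalences. -/
theorem mob : S_MOB := by
  intro a b c d hD
  set D : ℝ := a * d - b * c with hDdef
  have hs : 0 < Real.sqrt D := Real.sqrt_pos.2 hD
  have hss : Real.sqrt D * Real.sqrt D = D := Real.mul_self_sqrt hD.le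
  let g : SL(2, ℝ) := ⟨!![a / Real.sqrt D, b / Real.sqrt D; c / Real.sqrt D, d / Real.sqrt D], by
    rw [Matrix.det_fin_two_of]
    field_simp
    rw [sq, hss, hDdef]⟩
  refine ⟨(Homeomorph.smul g).toMeasurableEquiv, ?_, ?_, ?_⟩
  · exact isometry_smul ℍ g
  · refine ⟨(Homeomorph.smul g).toMeasurableEquiv.measurable, ?_⟩
    have h := (measurePreserving_smul (g : GL (Fin 2) ℝ) (volume : Measure ℍ)).map_eq
    exact h
  · intro z
    show ((g • z : ℍ) : ℂ) = _
    rw [coe_specialLinearGroup_apply]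
    have h00 : (g 0 0 : ℝ) = a / Real.sqrt D := rfl
    have h01 : (g 0 1 : ℝ) = b / Real.sqrt D := rfl
    have h10 : (g 1 0 : ℝ) = c / Real.sqrt D := rfl
    have h11 : (g 1 1 : ℝ) = d / Real.sqrt D := rfl
    simp only [Algebra.algebraMap_self, RingHom.id_apply, h00, h01, h10, h11]
    have hsC : ((Real.sqrt D : ℝ) : ℂ) ≠ 0 := by exact_mod_cast hs.ne'
    push_cast
    have e1 : (a : ℂ) / (Real.sqrt D : ℝ) * z + (b : ℂ) / (Real.sqrt D : ℝ)
        = (a * z + b) / (Real.sqrt D : ℝ) := by
      field_simp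
    have e2 : (c : ℂ) / (Real.sqrt D : ℝ) * z + (d : ℂ) / (Real.sqrt D : ℝ)
        = (c * z + d) / (Real.sqrt D : ℝ) := by
      field_simp
    rw [e1, e2, div_div_div_cancel_right₀ hsC]

end Pool.Agent.Y306.HM
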