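import Pool.Agent.Y306.HM.Min

/-!
Project HM: lower bound of the energy form by the limit distribution of the walk (`S_NET`)
-/

set_option autoImplicit false

open MeasureTheory Filter
open scoped ENNReal Topology

namespace Pool.Agent.Y306.HM

open Pool.Agent.Y979.HM

theorem meas_mem {V Ω' : Type} [MeasurableSpace Ω'] {P' : Measure Ω'}
    {G : SimpleGraph V} {x : V} {X : ℕ → Ω' → V} (hX : IsSRW P' G x X) (n : ℕ) (W : Finset V) :
    MeasurableSet {ω | X n ω ∈ W} := by
  have h : {ω | X n ω ∈ W} = ⋃ v ∈ W, {ω | X n ω = v} := by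
    ext ω
    simp
  rw [h]
  exact Finset.measurableSet_biUnion _ fun v _ => hX.measurable_eq n v

theorem meas_esc {V Ω' : Type} [Countable V] [MeasurableSpace Ω'] {P' : Measure Ω'}
    {G : SimpleGraph V} {x : V} {X : ℕ → Ω' → V} (hX : IsSRW P' G x X) (k : ℕ) :
    MeasurableSet (Esc X x k) := by
  have h : Esc X x k = (⋂ v : V, ⋃ N : ℕ, ⋂ n : ℕ, ⋂ (_ : N ≤ n), {ω | X n ω = v}ᶜ) ∩
      ⋂ n : ℕ, ⋂ (_ : k < n), {ω | X n ω = x}ᶜ := by
    ext ω
    simp only [Esc, eventually_atTop, Set.mem_inter_iff, Set.mem_iInter, Set.mem_iUnion,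
      Set.mem_compl_iff, Set.mem_ofPred_eq]
  rw [h]
  refine MeasurableSet.inter (MeasurableSet.iInter fun v => MeasurableSet.iUnion fun N =>
    MeasurableSet.iInter fun n => MeasurableSet.iInter fun _ => (hX.measurable_eq n v).compl)
    (MeasurableSet.iInter fun n => MeasurableSet.iInter fun _ => (hX.measurable_eq n x).compl)

theorem meas_comp {V Ω' : Type} [Countable V] [MeasurableSpace Ω'] {P' : Measure Ω'}
    {G : SimpleGraph V} {x : V} {X : ℕ → Ω' → V} (hX : IsSRW P' G x X) (n : ℕ) (w : V → ℝ) :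
    Measurable fun ω => ENNReal.ofReal (w (X n ω)) := by
  let _ : MeasurableSpace V := ⊤
  have h1 : Measurable (X n) := measurable_to_countable' fun v => hX.measurable_eq n v
  have h2 : Measurable fun v : V => ENNReal.ofReal (w v) := measurable_from_top
  exact h2.comp h1

theorem walk_bound (hexit : S_EXIT) {V Ω' : Type} [Countable V] [MeasurableSpace Ω']
    (P' : Measure Ω') [IsProbabilityMeasure P'] (G : SimpleGraph V) (hLF : LF G) (x : V)
    (X : ℕ → Ω' → V) (hX : IsSRW P' G x X) (W : ℕ → Finset V) (hxW : ∀ m, x ∈ W m)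
    (hcov : ∀ v, ∀ᶠ m in atTop, v ∈ W m) (F : V → ℝ) (f : ℕ → V → ℝ) (hf0 : ∀ m v, 0 ≤ f m v)
    (hfF : ∀ m v, v ∉ W m → f m v = F v) (hfx : ∀ m, f m x = 0)
    (hlap : ∀ m, ∀ v ∈ W m, v ≠ x → lap G (f m) v = 0) (k : ℕ) :
    ∫⁻ ω in Esc X x k, liminf (fun n => ENNReal.ofReal (F (X n ω))) atTop ∂P' ≤
      (k + 1) * liminf (fun m => ENNReal.ofReal (-lap G (f m) x / deg G x)) atTop := by
  classical
  set A : ℕ → ℕ → Set Ω' := fun m n =>
    {ω | X n ω ∉ W m ∧ (∀ i < n, X i ω ∈ W m) ∧ ∀ i, k < i → i < n → X i ω ≠ x} with hA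
  have hAm : ∀ m n, MeasurableSet (A m n) := by
    intro m n
    have h : A m n = {ω | X n ω ∈ W m}ᶜ ∩ ((⋂ i : ℕ, ⋂ (_ : i < n), {ω | X i ω ∈ W m}) ∩
        ⋂ i : ℕ, ⋂ (_ : k < i), ⋂ (_ : i < n), {ω | X i ω = x}ᶜ) := by
      ext ω
      simp only [hA, Set.mem_inter_iff, Set.mem_iInter, Set.mem_compl_iff, Set.mem_ofPred_eq]
    rw [h]
    exact (meas_mem hX n (W m)).compl.inter ((MeasurableSet.iInter fun i =>
      MeasurableSet.iInter fun _ => meas_mem hX i (W m)).inter (MeasurableSet.iInter fun i =>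
      MeasurableSet.iInter fun _ => MeasurableSet.iInter fun _ => (hX.measurable_eq i x).compl))
  set Φ : ℕ → Ω' → ℝ≥0∞ := fun m ω =>
    ∑' n, (A m n).indicator (fun ω => ENNReal.ofReal (f m (X n ω))) ω with hΦ
  have hΦm : ∀ m, Measurable (Φ m) := fun m =>
    Measurable.tsum fun n => (meas_comp hX n (f m)).indicator (hAm m n)
  have hΦi : ∀ m, ∫⁻ ω, Φ m ω ∂P' ≤ (k + 1) * ENNReal.ofReal (-lap G (f m) x / deg G x) := by
    intro m
    rw [lintegral_tsum fun n => ((meas_comp hX n (f m)).indicator (hAm m n)).aemeasurable]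
    refine le_trans (le_of_eq ?_) (hexit P' G hLF x X hX (W m) (hxW m) (f m) (hf0 m) (hfx m)
      (hlap m) k)
    congr 1
    ext n
    rw [lintegral_indicator (hAm m n)]
  have hpt : ∀ ω ∈ Esc X x k, liminf (fun n => ENNReal.ofReal (F (X n ω))) atTop ≤
      liminf (fun m => Φ m ω) atTop := by
    rintro ω ⟨h1, h2⟩
    have hex : ∀ m, ∃ n, X n ω ∉ W m := by
      intro m
      have h3 : ∀ᶠ n in atTop, ∀ v ∈ W m, X n ω ≠ v := by
        rw [eventually_all_finset]
        exact fun v _ => h1 v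
      obtain ⟨n, hn⟩ := h3.exists
      exact ⟨n, fun h => hn _ h rfl⟩
    set τ : ℕ → ℕ := fun m => Nat.find (hex m) with hτ
    have hτ1 : ∀ m, X (τ m) ω ∉ W m := fun m => Nat.find_spec (hex m)
    have hτ2 : ∀ m, ∀ i < τ m, X i ω ∈ W m := fun m i hi => by
      by_contra hcon
      exact Nat.find_min (hex m) hi hcon
    have hτt : Tendsto τ atTop atTop := by
      rw [tendsto_atTop]
      intro N
      have h3 : ∀ᶠ m in atTop, ∀ i ∈ Finset.range N, X i ω ∈ W m := by
        rw [eventually_all_finset]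
        exact fun i _ => hcov _
      filter_upwards [h3] with m hm
      by_contra hcon
      exact hτ1 m (hm _ (Finset.mem_range.2 (not_le.1 hcon)))
    have h4 : liminf (fun n => ENNReal.ofReal (F (X n ω))) atTop ≤
        liminf (fun m => ENNReal.ofReal (F (X (τ m) ω))) atTop := by
      have h5 := liminf_le_liminf_of_le (u := fun n => ENNReal.ofReal (F (X n ω))) hτt
      refine h5.trans (le_of_eq ?_)
      rfl
    refine h4.trans (liminf_le_liminf (Eventually.of_forall fun m => ?_))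
    have h6 : ω ∈ A m (τ m) := ⟨hτ1 m, hτ2 m, fun i hi _ => h2 i hi⟩
    refine le_trans (le_of_eq ?_) (ENNReal.le_tsum (τ m))
    rw [Set.indicator_of_mem h6, hfF m _ (hτ1 m)]
  calc ∫⁻ ω in Esc X x k, liminf (fun n => ENNReal.ofReal (F (X n ω))) atTop ∂P'
      ≤ ∫⁻ ω in Esc X x k, liminf (fun m => Φ m ω) atTop ∂P' :=
        setLIntegral_mono' (meas_esc hX k) hpt
    _ ≤ ∫⁻ ω, liminf (fun m => Φ m ω) atTop ∂P' := setLIntegral_le_lintegral _ _
    _ ≤ liminf (fun m => ∫⁻ ω, Φ m ω ∂P') atTop := lintegral_liminf_le hΦm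
    _ ≤ liminf (fun m => (k + 1) * ENNReal.ofReal (-lap G (f m) x / deg G x)) atTop :=
        liminf_le_liminf (Eventually.of_forall hΦi)
    _ = (k + 1) * liminf (fun m => ENNReal.ofReal (-lap G (f m) x / deg G x)) atTop := by
        rw [ENNReal.liminf_const_mul_of_ne_top]
        exact ENNReal.add_ne_top.2 ⟨ENNReal.natCast_ne_top k, ENNReal.one_ne_top⟩

theorem En_sub {V : Type*} (G : SimpleGraph V) (F H : V → ℝ) (h1 : En G F < ⊤)
    (h2 : En G H < ⊤) : En G (F - H) < ⊤ := by
  classical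
  have h3 : En G (F - H) ≤ 2 * En G F + 2 * En G H := by
    unfold En
    rw [← ENNReal.tsum_mul_left, ← ENNReal.tsum_mul_left, ← ENNReal.tsum_add]
    refine ENNReal.tsum_le_tsum fun p => ?_
    split_ifs
    · have e : (2 : ℝ≥0∞) = ENNReal.ofReal 2 := by simp
      rw [e, ← ENNReal.ofReal_mul (by norm_num), ← ENNReal.ofReal_mul (by norm_num),
        ← ENNReal.ofReal_add (by positivity) (by positivity)]
      refine ENNReal.ofReal_le_ofReal ?_
      simp only [Pi.sub_apply]
      nlinarith [sq_nonneg (F p.1 - F p.2 + (H p.1 - H p.2))]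
    · simp
  refine h3.trans_lt ?_
  exact ENNReal.add_lt_top.2 ⟨ENNReal.mul_lt_top (by simp) h1, ENNReal.mul_lt_top (by simp) h2⟩

theorem Qn_le {V : Type*} (G : SimpleGraph V) (f : V → ℝ) : Qn G f ≤ En G f := by
  unfold Qn
  refine (iInf_le _ 0).trans (le_of_eq ?_)
  congr 1
  ext v
  simp

theorem net (hmin : S_MIN) (hkey : S_KEY) (hexit : S_EXIT) : S_NET := by
  classical
  intro V Ω' _ _ P' _ G hLF x X hX F H C hF0 hH0 hFC hHC hFH hEF hEH k
  obtain ⟨e, he⟩ := exists_injective_nat V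
  have hfin : ∀ m : ℕ, {v : V | e v < m}.Finite := fun m =>
    (Set.finite_lt_nat m).preimage he.injOn
  set W : ℕ → Finset V := fun m => insert x (hfin m).toFinset with hW
  have hxW : ∀ m, x ∈ W m := fun m => Finset.mem_insert_self _ _
  have hcov : ∀ v, ∀ᶠ m in atTop, v ∈ W m := by
    intro v
    filter_upwards [eventually_gt_atTop (e v)] with m hm
    exact Finset.mem_insert_of_mem ((hfin m).mem_toFinset.2 hm)
  -- the solutions
  have hsol : ∀ F : V → ℝ, (∀ v, 0 ≤ F v) → (∀ v, F v ≤ C) → ∃ f : ℕ → V → ℝ,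
      (∀ m v, 0 ≤ f m v) ∧ (∀ m v, v ∉ W m → f m v = F v) ∧ (∀ m, f m x = 0) ∧
      ∀ m, ∀ v ∈ W m, v ≠ x → lap G (f m) v = 0 := by
    intro F hF0 hFC
    have h1 : ∀ m, ∃ w : V → ℝ, (∀ v, 0 ≤ w v) ∧ (∀ v, w v ≤ C) ∧
        (∀ v, v ∉ (W m).erase x → w v = Function.update F x 0 v) ∧
        ∀ v ∈ (W m).erase x, lap G w v = 0 := by
      intro m
      refine hmin G hLF ((W m).erase x) (Function.update F x 0) C (fun v => ?_) fun v => ?_
      · by_cases hv : v = x
        · rw [hv, Function.update_self]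
        · rw [Function.update_of_ne hv]
          exact hF0 v
      · by_cases hv : v = x
        · rw [hv, Function.update_self]
          exact (hF0 x).trans (hFC x)
        · rw [Function.update_of_ne hv]
          exact hFC v
    choose f g0 _ g2 g3 using h1
    refine ⟨f, g0, fun m v hv => ?_, fun m => ?_, fun m v hv hvx =>
      g3 m v (Finset.mem_erase.2 ⟨hvx, hv⟩)⟩
    · have hvx : v ≠ x := fun h => hv (h ▸ hxW m)
      rw [g2 m v fun h => hv (Finset.mem_of_mem_erase h), Function.update_of_ne hvx]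
    · rw [g2 m x (Finset.notMem_erase _ _), Function.update_self]
  obtain ⟨f, f0, fF, fx, fl⟩ := hsol F hF0 hFC
  obtain ⟨h, h0, hHh, hx, hl⟩ := hsol H hH0 hHC
  have b1 := walk_bound hexit P' G hLF x X hX W hxW hcov F f f0 fF fx fl k
  have b2 := walk_bound hexit P' G hLF x X hX W hxW hcov H h h0 hHh hx hl k
  set a : ℕ → ℝ≥0∞ := fun m => ENNReal.ofReal (-lap G (f m) x / deg G x) with ha
  set b : ℕ → ℝ≥0∞ := fun m => ENNReal.ofReal (-lap G (h m) x / deg G x) with hb
  have hnlap : ∀ u : V → ℝ, (∀ v, 0 ≤ u v) → u x = 0 → lap G u x ≤ 0 := by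
    intro u hu hux
    rw [lap_eq G u x (hLF x)]
    refine Finset.sum_nonpos fun z _ => ?_
    rw [hux]
    linarith [hu z]
  -- the product
  have hkey' : Qn G (F + H) + 8 * (liminf a atTop * liminf b atTop) ≤ Qn G (F - H) := by
    unfold Qn
    rw [le_iInf_iff]
    intro φ
    have h1 : ∀ᶠ m in atTop, ∀ v ∈ φ.support, v ∈ W m := by
      rw [eventually_all_finset]
      exact fun v _ => hcov v
    have h2 : ∀ᶠ m in atTop, Qn G (F + H) + 8 * (a m * b m) ≤ En G (F - H + φ) := by
      filter_upwards [h1] with m hm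
      have h3 := hkey G hLF (W m) x (hxW m) F H (f m) (h m) hF0 hH0 hFH hEF hEH (fF m) (fx m)
        (fl m) (hHh m) (hx m) (hl m) (f0 m) (h0 m) (F - H + φ) (by
          intro v hv
          have h4 : φ v = 0 := by
            by_contra hcon
            exact hv (hm v (Finsupp.mem_support_iff.2 hcon))
          simp [h4])
      refine le_trans ?_ h3
      refine add_le_add le_rfl ?_
      have e1 := hnlap (f m) (f0 m) (fx m)
      have e2 := hnlap (h m) (h0 m) (hx m)
      have e3 : 0 ≤ deg G x := Nat.cast_nonneg _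
      have e4 : (8 : ℝ≥0∞) = ENNReal.ofReal 8 := by simp
      show 8 * (ENNReal.ofReal (-lap G (f m) x / deg G x) *
        ENNReal.ofReal (-lap G (h m) x / deg G x)) ≤ _
      rw [← ENNReal.ofReal_mul (div_nonneg (by linarith) e3), e4,
        ← ENNReal.ofReal_mul (by norm_num)]
      refine ENNReal.ofReal_le_ofReal ?_
      have e5 : 0 ≤ lap G (f m) x * lap G (h m) x := mul_nonneg_of_nonpos_of_nonpos e1 e2
      rcases Nat.eq_zero_or_pos (G.neighborSet x).ncard with h5 | h5
      · have h6 : deg G x = 0 := by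
          unfold deg
          rw [h5, Nat.cast_zero]
        rw [h6]
        simp
      · have h6 : 1 ≤ deg G x := by
          unfold deg
          exact_mod_cast h5
        have h7 : 8 * (-lap G (f m) x / deg G x * (-lap G (h m) x / deg G x)) =
            8 * (lap G (f m) x * lap G (h m) x) / deg G x / deg G x := by
          field_simp
        rw [h7]
        exact div_le_self (by positivity) h6
    have h4 : Qn G (F + H) ≤ En G (F - H + φ) := by
      obtain ⟨m, hm⟩ := h2.exists
      exact le_self_add.trans hm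
    change Qn G (F + H) + 8 * (liminf a atTop * liminf b atTop) ≤ En G (F - H + φ)
    by_cases hq : Qn G (F + H) = ⊤
    · rw [hq, top_le_iff] at h4
      rw [h4]
      exact le_top
    have h3 : ∀ᶠ m in atTop, 8 * (a m * b m) ≤ En G (F - H + φ) - Qn G (F + H) := by
      filter_upwards [h2] with m hm
      exact ENNReal.le_sub_of_add_le_left hq hm
    have h5 : 8 * (liminf a atTop * liminf b atTop) ≤ En G (F - H + φ) - Qn G (F + H) := by
      calc 8 * (liminf a atTop * liminf b atTop) ≤ 8 * liminf (a * b) atTop := by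
            gcongr
            exact ENNReal.le_liminf_mul
        _ = liminf (fun m => 8 * (a m * b m)) atTop := by
            rw [← ENNReal.liminf_const_mul_of_ne_top (by simp)]
            rfl
        _ ≤ liminf (fun _ : ℕ => En G (F - H + φ) - Qn G (F + H)) atTop :=
            liminf_le_liminf h3
        _ = En G (F - H + φ) - Qn G (F + H) := liminf_const _
    calc Qn G (F + H) + 8 * (liminf a atTop * liminf b atTop)
        ≤ Qn G (F + H) + (En G (F - H + φ) - Qn G (F + H)) := by gcongr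
      _ = En G (F - H + φ) := add_tsub_cancel_of_le h4
  have hQm : Qn G (F - H) < ⊤ := (Qn_le G _).trans_lt (En_sub G F H hEF hEH)
  have hsum := hkey'.trans_lt hQm
  have hQp : Qn G (F + H) < ⊤ := lt_of_le_of_lt le_self_add hsum
  have hab : 8 * (liminf a atTop * liminf b atTop) < ⊤ := lt_of_le_of_lt le_add_self hsum
  have hab' : liminf a atTop * liminf b atTop ≠ ⊤ := by
    intro hcon
    rw [hcon] at hab
    simp at hab
  have hreal := ENNReal.toReal_mono hQm.ne hkey'
  rw [ENNReal.toReal_add hQp.ne hab.ne, ENNReal.toReal_mul] at hreal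
  have hfinal : liminf a atTop * liminf b atTop ≤ ENNReal.ofReal (bn G F H) := by
    rw [← ENNReal.ofReal_toReal hab']
    refine ENNReal.ofReal_le_ofReal ?_
    unfold bn
    have e8 : (8 : ℝ≥0∞).toReal = 8 := by simp
    rw [e8] at hreal
    have := ENNReal.toReal_nonneg (a := liminf a atTop * liminf b atTop)
    linarith
  calc _ ≤ ((k + 1) * liminf a atTop) * ((k + 1) * liminf b atTop) := mul_le_mul' b1 b2
    _ = (k + 1) ^ 2 * (liminf a atTop * liminf b atTop) := by ring
    _ ≤ (k + 1) ^ 2 * ENNReal.ofReal (bn G F H) := by gcongr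

end Pool.Agent.Y306.HM
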