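import Pool.Agent.Y979.HM.Stm

/-!
# Project HM: the energy at one point is bounded by the tile sum
-/

set_option autoImplicit false

open MeasureTheory UpperHalfPlane Pool.Agent.Y979.HV Pool.Agent.Y979.HM
open scoped ENNReal

namespace Pool.Agent.Y306.HM

theorem tile_dist {p : ℤ × ℤ} {w : ℍ} (hw : w ∈ tile p) : dist w (ctr p) ≤ 3 / 5 := by
  obtain ⟨h1, h2, h3, h4⟩ := hw
  set N : ℝ := (2 : ℝ) ^ p.1 with hN
  have hN0 : 0 < N := by positivity
  rw [zpow_add₀ (two_ne_zero), zpow_one, ← hN] at h4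
  have hcre : (ctr p).re = ((p.2 : ℝ) + 1 / 2) * N := rfl
  have hcim : (ctr p).im = 3 / 2 * N := rfl
  have hform := cosh_dist_eq w (ctr p)
  rw [norm_sq_eq, norm_sq_eq, hcre, hcim] at hform
  have hwi := w.im_pos
  have hcosh : Real.cosh (dist w (ctr p)) ≤ 7 / 6 := by
    rw [hform, div_le_iff₀ (by positivity)]
    have a1 : (w.re - ((p.2 : ℝ) + 1 / 2) * N) ^ 2 ≤ (N / 2) ^ 2 := by
      apply sq_le_sq'
      · linarith
      · linarith
    have a2 : (w.im - 3 / 2 * N) ^ 2 ≤ (N / 2) ^ 2 := by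
      apply sq_le_sq'
      · linarith
      · linarith
    have a3 : N * N ≤ w.im * N := mul_le_mul_of_nonneg_right h3 hN0.le
    nlinarith
  have h5 := half_sq_le_cosh (3 / 5)
  have h6 : Real.cosh (dist w (ctr p)) ≤ Real.cosh (3 / 5) := by linarith
  rw [Real.cosh_le_cosh, abs_of_nonneg dist_nonneg, abs_of_nonneg (by norm_num : (0 : ℝ) ≤ 3 / 5)] at h6
  exact h6

theorem exists_tile (c : ℍ) : ∃ p : ℤ × ℤ, c ∈ tile p := by
  have hc := c.im_pos
  have hn : (0 : ℝ) < (2 : ℝ) ^ Int.log 2 c.im := by positivity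
  refine ⟨(Int.log 2 c.im, ⌊c.re / (2 : ℝ) ^ Int.log 2 c.im⌋), ?_, ?_, ?_, ?_⟩
  · show (⌊c.re / (2 : ℝ) ^ Int.log 2 c.im⌋ : ℝ) * (2 : ℝ) ^ Int.log 2 c.im ≤ c.re
    have := Int.floor_le (c.re / (2 : ℝ) ^ Int.log 2 c.im)
    rwa [le_div_iff₀ hn] at this
  · show c.re < ((⌊c.re / (2 : ℝ) ^ Int.log 2 c.im⌋ : ℝ) + 1) * (2 : ℝ) ^ Int.log 2 c.im
    have := Int.lt_floor_add_one (c.re / (2 : ℝ) ^ Int.log 2 c.im)
    rwa [div_lt_iff₀ hn] at this
  · have := Int.zpow_log_le_self (b := 2) (r := c.im) (by norm_num) hc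
    exact_mod_cast this
  · have := Int.lt_zpow_succ_log_self (b := 2) (by norm_num) c.im
    exact_mod_cast this

theorem tsum_ind (S B : Set ℍ) : ∑' x : S, (B.indicator (fun _ => (1 : ℝ≥0∞)) (x : ℍ)) =
    (((S ∩ B).encard : ℕ∞) : ℝ≥0∞) := by
  rw [← ENNReal.tsum_set_one (S ∩ B), tsum_subtype S (fun x => B.indicator (fun _ => (1 : ℝ≥0∞)) x),
    tsum_subtype (S ∩ B) (fun _ => (1 : ℝ≥0∞))]
  congr 1
  rw [Set.indicator_indicator]

open Classical in
/-- The energy at one point is bounded by the tile sum. -/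
theorem td : S_TD := by
  intro A Z p w hw S hS
  have hwim : w.im ^ 2 ≤ 4 * (4 : ℝ) ^ p.1 := by
    have h4 := hw.2.2.2
    have hwi := w.im_pos
    have e : (4 : ℝ) * (4 : ℝ) ^ p.1 = ((2 : ℝ) ^ (p.1 + 1)) ^ 2 := by
      rw [zpow_add₀ (two_ne_zero), zpow_one, mul_pow, ← zpow_natCast, ← zpow_mul, mul_comm p.1,
        zpow_mul]
      norm_num
      ring
    rw [e]
    exact pow_le_pow_left₀ hwi.le h4.le 2
  have hwc := tile_dist hw
  -- the term of one point
  have hterm : ∀ x : S, ENNReal.ofReal (w.im ^ 2 * Real.exp (2 * dist w x)) ≤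
      ∑' L : ℕ, 4 * (if Bad Z p L A then
        ENNReal.ofReal ((4 : ℝ) ^ p.1 * Real.exp (4 * L)) *
        ((Metric.closedBall (ctr p) (2 * (L : ℝ) + 3)).indicator (fun _ => (1 : ℝ≥0∞)) (x : ℍ))
        else 0) := by
    intro x
    obtain ⟨r, hr0, hr1, hr2⟩ := hS x x.2
    have hL1 : r ≤ (⌈r⌉₊ : ℝ) := Nat.le_ceil r
    have hL2 : (⌈r⌉₊ : ℝ) < r + 1 := Nat.ceil_lt_add_one hr0
    refine le_trans ?_ (ENNReal.le_tsum ⌈r⌉₊)
    have hbad : Bad Z p ⌈r⌉₊ A := by
      rcases hr2 with h3 | ⟨c, hc1, hc2, hc3⟩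
      · have h3' : (⌈r⌉₊ : ℝ) ≤ 3 := by
          have : ⌈r⌉₊ ≤ 3 := Nat.ceil_le.2 (by exact_mod_cast h3)
          exact_mod_cast this
        have hemp : Metric.ball (ctr p) ((⌈r⌉₊ : ℝ) - 6) = ∅ := Metric.ball_eq_empty.2 (by linarith)
        refine ⟨p, ?_, ?_, ?_⟩
        · rw [dist_self]
          positivity
        · rw [hemp]
          exact Set.empty_subset _
        · rw [hemp]
          exact Set.inter_empty _
      · obtain ⟨p', hp'⟩ := exists_tile c
        have hcc := tile_dist hp'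
        have hsub : Metric.ball (ctr p') ((⌈r⌉₊ : ℝ) - 6) ⊆ Metric.ball c (r - 3) := by
          apply Metric.ball_subset_ball'
          rw [dist_comm]
          linarith
        refine ⟨p', ?_, hsub.trans hc2, ?_⟩
        · have t1 := dist_triangle (ctr p) w (ctr p')
          have t2 := dist_triangle w c (ctr p')
          rw [dist_comm (ctr p) w] at t1
          rw [dist_comm w c] at t2
          linarith
        · apply Set.eq_empty_of_subset_empty
          rw [← hc3]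
          exact Set.inter_subset_inter_right _ hsub
    have hball : (x : ℍ) ∈ Metric.closedBall (ctr p) (2 * (⌈r⌉₊ : ℝ) + 3) := by
      rw [Metric.mem_closedBall]
      have := dist_triangle (x : ℍ) w (ctr p)
      rw [dist_comm (x : ℍ) w] at this
      linarith
    rw [if_pos hbad, Set.indicator_of_mem hball, mul_one]
    have h4 : (4 : ℝ≥0∞) = ENNReal.ofReal 4 := by norm_num
    rw [h4, ← ENNReal.ofReal_mul (by norm_num)]
    apply ENNReal.ofReal_le_ofReal
    have he : Real.exp (2 * dist w x) ≤ Real.exp (4 * (⌈r⌉₊ : ℝ)) :=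
      Real.exp_le_exp.2 (by linarith)
    calc w.im ^ 2 * Real.exp (2 * dist w x) ≤ (4 * (4 : ℝ) ^ p.1) * Real.exp (4 * (⌈r⌉₊ : ℝ)) :=
          mul_le_mul hwim he (Real.exp_pos _).le (by positivity)
      _ = 4 * ((4 : ℝ) ^ p.1 * Real.exp (4 * (⌈r⌉₊ : ℝ))) := by ring
  refine (ENNReal.tsum_le_tsum hterm).trans ?_
  rw [ENNReal.tsum_comm, ← ENNReal.tsum_mul_left]
  apply le_of_eq
  congr 1
  funext L
  rw [ENNReal.tsum_mul_left]
  congr 1
  split_ifs with hb
  · rw [ENNReal.tsum_mul_left, tsum_ind]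
  · simp

end Pool.Agent.Y306.HM
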